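import Pool.Agent.W133.DQ.StB

/-!
Project DQ (helper133), part BIG: homomorphisms vanish on all leaf preserving diffeomorphisms.
-/

set_option autoImplicit false

open scoped ContDiff
open Set Filter Topology

namespace Pool.Agent.W249.DQ

open Pool.Agent.W133.DQ

lemma four_le : ((4 : ℕ) : WithTop ℕ∞) ≤ ∞ :=
  WithTop.coe_le_coe.mpr (le_top : ((4 : ℕ) : ℕ∞) ≤ ⊤)

/-- dilation of the plane -/
noncomputable def dl (a : ℝ) (ha : a ≠ 0) : Equiv.Perm P2 where
  toFun p := a • p
  invFun p := a⁻¹ • p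
  left_inv p := by simp [smul_smul, ha]
  right_inv p := by simp [smul_smul, ha]

/-- the derivative of the displacement in the leaf direction -/
lemma deriv_gt {P : Equiv.Perm P2} (hP : P ∈ LP) (hR : ∀ p : P2, 1 / 2 < ‖p‖ → P p = p)
    (x y : ℝ) : -1 < deriv (fun s => (P (s, y)).1 - s) x := by
  set φ : ℝ → ℝ := fun s => (P (s, y)).1 with hφ
  set ψ : ℝ → ℝ := fun s => (P⁻¹ (s, y)).1 with hψ
  have hc1 : ContDiff ℝ ∞ φ := by
    have h1 : ContDiff ℝ ∞ (fun p : P2 => (P p).1) := contDiff_fst.comp hP.1.1.1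
    exact h1.comp (contDiff_id.prodMk contDiff_const)
  have hc2 : ContDiff ℝ ∞ ψ := by
    have h1 : ContDiff ℝ ∞ (fun p : P2 => (P⁻¹ p).1) := contDiff_fst.comp hP.1.1.2
    exact h1.comp (contDiff_id.prodMk contDiff_const)
  have hd1 : Differentiable ℝ φ := hc1.differentiable (by simp)
  have hd2 : Differentiable ℝ ψ := hc2.differentiable (by simp)
  have hcomp : ∀ s, ψ (φ s) = s := by
    intro s
    have h1 : P (s, y) = (φ s, y) := Prod.ext rfl (hP.2 (s, y))
    have h2 : P⁻¹ (φ s, y) = (s, y) := by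
      rw [Equiv.Perm.inv_eq_iff_eq]; exact h1.symm
    simp only [hψ, h2]
  have hne : ∀ s, deriv φ s ≠ 0 := by
    intro s h0
    have h1 : HasDerivAt (ψ ∘ φ) (deriv ψ (φ s) * deriv φ s) s :=
      (hd2 (φ s)).hasDerivAt.comp s (hd1 s).hasDerivAt
    have h2 : (ψ ∘ φ) = id := funext hcomp
    rw [h2] at h1
    have h3 := h1.unique (hasDerivAt_id s)
    rw [h0, mul_zero] at h3
    exact zero_ne_one h3
  have hcont : Continuous (deriv φ) := hc1.continuous_deriv (by simp)
  have hone : deriv φ 1 = 1 := by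
    have h1 : φ =ᶠ[𝓝 1] id := by
      have h2 : Ioi (1 / 2 : ℝ) ∈ 𝓝 (1 : ℝ) := Ioi_mem_nhds (by norm_num)
      filter_upwards [h2] with s hs
      have h3 : 1 / 2 < ‖((s, y) : P2)‖ := by
        refine lt_of_lt_of_le ?_ (norm_fst_le ((s, y) : P2))
        rw [Real.norm_eq_abs]
        exact lt_of_lt_of_le hs (le_abs_self s)
      simp only [hφ, hR _ h3, id]
    rw [h1.deriv_eq]
    exact deriv_id 1
  have hpos : 0 < deriv φ x := by
    by_contra h
    push Not at h
    obtain ⟨z, hz⟩ := mem_range_of_exists_le_of_exists_ge hcont ⟨x, h⟩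
      ⟨1, by rw [hone]; norm_num⟩
    exact hne z hz
  have hfin : deriv (fun s => (P (s, y)).1 - s) x = deriv φ x - 1 :=
    ((hd1 x).hasDerivAt.sub (hasDerivAt_id x)).deriv
  rw [hfin]
  linarith

/-- diffeomorphisms with displacement `s * u` -/
lemma exists_g (hI : S_LPINV) {u : P2 → ℝ} (hu : ContDiff ℝ ∞ u)
    (h0 : ∀ p : P2, 1 / 2 < ‖p‖ → u p = 0)
    (hd : ∀ x y : ℝ, -1 < deriv (fun s => u (s, y)) x) (s : ℝ) (hs0 : 0 ≤ s) (hs1 : s ≤ 1) :
    ∃ h : Equiv.Perm P2, h ∈ LP ∧ ∀ p, h p = (p.1 + s * u p, p.2) := by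
  have hsupp : HasCompactSupport u := by
    refine HasCompactSupport.intro (isCompact_closedBall (0 : P2) (1 / 2)) ?_
    intro p hp
    apply h0
    rw [mem_closedBall_zero_iff, not_le] at hp
    exact hp
  obtain ⟨C, hC⟩ := hsupp.exists_bound_of_continuous hu.continuous
  have hw : ContDiff ℝ ∞ (fun q : ℝ × ℝ => s * u q) := contDiff_const.mul hu
  obtain ⟨M, hM1, hM2⟩ := hI ℝ (fun q : ℝ × ℝ => s * u q) hw (by
    intro x e
    have h1 : DifferentiableAt ℝ (fun s' : ℝ => u (s', e)) x := by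
      have h2 : ContDiff ℝ ∞ (fun s' : ℝ => u (s', e)) :=
        hu.comp (contDiff_id.prodMk contDiff_const)
      exact h2.differentiable (by simp) x
    have h2 : deriv (fun s' : ℝ => s * u (s', e)) x = s * deriv (fun s' => u (s', e)) x :=
      (h1.hasDerivAt.const_mul s).deriv
    have h3 := hd x e
    rw [h2]
    rcases le_or_gt 0 (deriv (fun s' => u (s', e)) x) with h4 | h4
    · have := mul_nonneg hs0 h4
      linarith
    · nlinarith) (by
    intro e
    refine ⟨|s| * C, fun x => ?_⟩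
    rw [abs_mul]
    exact mul_le_mul_of_nonneg_left (hC (x, e)) (abs_nonneg s))
  refine ⟨M, ⟨⟨⟨?_, hM2⟩, 1 / 2, ?_⟩, ?_⟩, hM1⟩
  · have e : (fun p => M p) = fun q : P2 => (q.1 + s * u q, q.2) := funext hM1
    rw [e]
    exact (contDiff_fst.add hw).prodMk contDiff_snd
  · intro p hp
    rw [hM1, h0 p hp]
    simp
  · intro p
    rw [hM1]

/-- the case of support in the ball of radius `1 / 2` -/
lemma big_ball (hF : S_FIX) (hI : S_LPINV) (L : Equiv.Perm P2 → ℝ) (hL : HomOn DC L)
    {P : Equiv.Perm P2} (hP : P ∈ LP) (hR : ∀ p : P2, 1 / 2 < ‖p‖ → P p = p) : L P = 0 := by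
  set u : P2 → ℝ := fun p => (P p).1 - p.1 with hu
  have huc : ContDiff ℝ ∞ u := (contDiff_fst.comp hP.1.1.1).sub contDiff_fst
  have hu0 : ∀ p : P2, 1 / 2 < ‖p‖ → u p = 0 := by
    intro p hp
    simp only [hu, hR p hp, sub_self]
  have hd : ∀ x y : ℝ, -1 < deriv (fun s => u (s, y)) x := fun x y => deriv_gt hP hR x y
  set τ : ℝ → ℝ := fun t => max 0 (min t 1) with hτ
  have hτc : Continuous τ := continuous_const.max (continuous_id.min continuous_const)
  have hτ0 : ∀ t, 0 ≤ τ t := fun t => le_max_left _ _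
  have hτ1 : ∀ t, τ t ≤ 1 := fun t => max_le (by norm_num) (min_le_right _ _)
  choose h hLP hh using fun t : ℝ => exists_g hI huc hu0 hd (τ t) (hτ0 t) (hτ1 t)
  obtain ⟨ε, hε, hfix⟩ := hF L hL
  have hfixpt : ∀ t p, 1 / 2 < ‖p‖ → (h t)⁻¹ p = p := by
    intro t p hp
    rw [Equiv.Perm.inv_eq_iff_eq, hh, hu0 p hp]
    simp
  have hloc : IsLocallyConstant (fun t => L (h t)) := by
    rw [IsLocallyConstant.iff_eventually_eq]
    intro t0
    set W : P2 → ℝ := fun p => u ((h t0)⁻¹ p) with hW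
    have hWc : ContDiff ℝ ∞ W := huc.comp (hLP t0).1.1.2
    have hW0 : ∀ p : P2, 1 / 2 < ‖p‖ → W p = 0 := by
      intro p hp
      simp only [hW, hfixpt t0 p hp, hu0 p hp]
    have hWs : HasCompactSupport W := by
      refine HasCompactSupport.intro (isCompact_closedBall (0 : P2) (1 / 2)) ?_
      intro p hp
      apply hW0
      rw [mem_closedBall_zero_iff, not_le] at hp
      exact hp
    obtain ⟨C, hC⟩ := (hWs.iteratedFDeriv (𝕜 := ℝ) 4).exists_bound_of_continuous
      (hWc.continuous_iteratedFDeriv (m := 4) (four_le))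
    have hC0 : 0 ≤ C := (norm_nonneg _).trans (hC 0)
    have hev : ∀ᶠ t in 𝓝 t0, |τ t - τ t0| * (C + 1) < ε := by
      have h1 : ContinuousAt (fun t => |τ t - τ t0| * (C + 1)) t0 := by
        fun_prop
      have h2 : (fun t => |τ t - τ t0| * (C + 1)) t0 < ε := by simpa using hε
      exact h1.eventually_lt continuousAt_const h2
    filter_upwards [hev] with t ht
    set c : ℝ := τ t - τ t0 with hc
    have hv : L (h t * (h t0)⁻¹) = 0 := by
      refine hfix (fun p => c * W p) (contDiff_const.mul hWc) ?_ ?_ _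
        (LP.mul_mem (hLP t) (LP.inv_mem (hLP t0))) ?_
      · intro p hp
        have h1 : 1 / 2 < ‖p‖ := by
          rcases hp with hp | hp
          · refine lt_of_lt_of_le ?_ (norm_fst_le p)
            rw [Real.norm_eq_abs]
            linarith
          · refine lt_of_lt_of_le ?_ (norm_snd_le p)
            rw [Real.norm_eq_abs]
            linarith
        simp only
        rw [hW0 p h1, mul_zero]
      · intro p
        have e1 : (fun p => c * W p) = c • W := by
          funext p; simp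
        rw [e1, iteratedFDeriv_const_smul_apply (hWc.contDiffAt.of_le (four_le)),
          norm_smul, Real.norm_eq_abs]
        have h1 : |c| * ‖iteratedFDeriv ℝ 4 W p‖ ≤ |c| * (C + 1) :=
          mul_le_mul_of_nonneg_left ((hC p).trans (by linarith)) (abs_nonneg c)
        exact h1.trans ht.le
      · intro p
        rw [Equiv.Perm.mul_apply, hh]
        have h1 : h t0 ((h t0)⁻¹ p) = p := (h t0).apply_symm_apply p
        have h2 := hh t0 ((h t0)⁻¹ p)
        rw [h1] at h2
        have h3 : p.1 = ((h t0)⁻¹ p).1 + τ t0 * u ((h t0)⁻¹ p) := by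
          conv_lhs => rw [h2]
        have h4 : p.2 = ((h t0)⁻¹ p).2 := by
          conv_lhs => rw [h2]
        refine Prod.ext ?_ h4.symm
        simp only [hW, hc]
        rw [h3]
        have h5 : (((h t0)⁻¹ p).1 + τ t0 * u ((h t0)⁻¹ p), p.2) = p := by
          rw [← h3]
        ring_nf
    have hmul := hL (h t * (h t0)⁻¹) (DC.mul_mem (hLP t).1 (DC.inv_mem (hLP t0).1)) (h t0)
      (hLP t0).1
    rw [inv_mul_cancel_right, hv, zero_add] at hmul
    exact hmul
  have hconst := hloc.apply_eq_of_preconnectedSpace 1 0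
  have hone : h 1 = P := by
    ext p : 1
    rw [hh]
    have e : τ 1 = 1 := by simp [hτ]
    rw [e]
    refine Prod.ext ?_ (hP.2 p).symm
    simp only [hu]
    ring
  have hzero : h 0 = 1 := by
    ext p : 1
    rw [hh]
    have e : τ 0 = 0 := by simp [hτ]
    rw [e]
    simp
  have hL1 : L 1 = 0 := by
    have := hL 1 DC.one_mem 1 DC.one_mem
    rw [mul_one] at this
    linarith
  simp only [hone, hzero, hL1] at hconst
  exact hconst

theorem big (hF : S_FIX) (hC : S_CONJL) (hI : S_LPINV) : S_BIG := by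
  intro L hL P hP
  obtain ⟨R, hR⟩ := hP.1.2
  set R' : ℝ := max R 1 with hR'
  have hR1 : 1 ≤ R' := le_max_right _ _
  have hR2 : R ≤ R' := le_max_left _ _
  set a : ℝ := (2 * R')⁻¹ with ha
  have ha0 : 0 < a := by positivity
  set Q : Equiv.Perm P2 := dl a ha0.ne' * P * (dl a ha0.ne')⁻¹ with hQ
  have hQe : ∀ p, Q p = a • P (a⁻¹ • p) := fun p => rfl
  have hQi : ∀ p, Q⁻¹ p = a • P⁻¹ (a⁻¹ • p) := by
    intro p
    rw [hQ, mul_inv_rev, mul_inv_rev, inv_inv]
    rfl
  have hQR : ∀ p : P2, 1 / 2 < ‖p‖ → Q p = p := by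
    intro p hp
    rw [hQe, hR]
    · rw [smul_smul, mul_inv_cancel₀ ha0.ne', one_smul]
    · rw [norm_smul, ha, inv_inv, Real.norm_eq_abs, abs_of_pos (by positivity)]
      nlinarith
  have hQLP : Q ∈ LP := by
    refine ⟨⟨⟨?_, ?_⟩, 1 / 2, hQR⟩, ?_⟩
    · have e : (fun p => Q p) = fun p => a • P (a⁻¹ • p) := funext hQe
      rw [e]
      exact (hP.1.1.1.comp (contDiff_const_smul a⁻¹)).const_smul a
    · have e : (fun p => Q⁻¹ p) = fun p => a • P⁻¹ (a⁻¹ • p) := funext hQi
      rw [e]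
      exact (hP.1.1.2.comp (contDiff_const_smul a⁻¹)).const_smul a
    · intro p
      rw [hQe, Prod.smul_snd, hP.2, Prod.smul_snd, smul_smul, mul_inv_cancel₀ ha0.ne', one_smul]
  have h1 : L Q = L P := (hC L hL).2 P hP.1 Q hQLP.1 a ha0 (by
    intro p
    rw [hQe, smul_smul, inv_mul_cancel₀ ha0.ne', one_smul])
  rw [← h1]
  exact big_ball hF hI L hL hQLP hQR

end Pool.Agent.W249.DQ

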